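import Pool.Agent.H88.CL.Basic

/-!
Row BND of the project CL: uniform bounds for lifts.
-/

set_option autoImplicit false

open Pool.Agent.H88.CL Set Function Topology Metric Filter

namespace Pool.Agent.H26.CL

private theorem fderiv_per (h : T_CON) {d : ℕ} (F : E d → E d) (hc : ContDiff ℝ 2 F)
    (hp : ∀ x, ∀ z ∈ Lat d, F (x + z) - F x ∈ Lat d) (x z : E d) (hz : z ∈ Lat d) :
    fderiv ℝ F (x + z) = fderiv ℝ F x := by
  have hcont : Continuous (fun x => F (x + z) - F x) :=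
    (hc.continuous.comp (continuous_id.add continuous_const)).sub hc.continuous
  have hconst := h d (fun x => F (x + z) - F x) hcont (fun x => hp x z hz)
  have hfun : (fun x => F (x + z)) = fun x => F x + (F (0 + z) - F 0) := by
    funext y
    have hcy : F (y + z) - F y = F (0 + z) - F 0 := hconst y 0
    rw [← hcy]
    abel
  have e1 : fderiv ℝ (fun x => F (x + z)) x = fderiv ℝ F (x + z) := fderiv_comp_add_right z
  rw [← e1, hfun, fderiv_add_const]

private theorem bdd_of_per {d : ℕ} {W : Type} [NormedAddCommGroup W] (H : E d → W)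
    (hc : Continuous H) (hp : ∀ x, ∀ z ∈ Lat d, H (x + z) = H x) : ∃ B : ℝ, ∀ x, ‖H x‖ ≤ B := by
  obtain ⟨B, hB⟩ := (isCompact_closedBall (0 : E d) (Real.sqrt d)).exists_bound_of_continuousOn
    hc.continuousOn
  refine ⟨B, fun x => ?_⟩
  have hz : (WithLp.toLp 2 (fun i => ((⌊x i⌋ : ℤ) : ℝ)) : E d) ∈ Lat d := fun i => ⟨⌊x i⌋, rfl⟩
  have hy : x - (WithLp.toLp 2 (fun i => ((⌊x i⌋ : ℤ) : ℝ)) : E d) ∈
      closedBall (0 : E d) (Real.sqrt d) := by
    rw [mem_closedBall, dist_zero_right, EuclideanSpace.norm_eq]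
    apply Real.sqrt_le_sqrt
    calc ∑ i, ‖(x - (WithLp.toLp 2 (fun i => ((⌊x i⌋ : ℤ) : ℝ)) : E d)) i‖ ^ 2 ≤
        ∑ _i : Fin d, (1 : ℝ) := by
          apply Finset.sum_le_sum
          intro i _
          have e : (x - (WithLp.toLp 2 (fun i => ((⌊x i⌋ : ℤ) : ℝ)) : E d)) i =
              x i - (⌊x i⌋ : ℤ) := rfl
          rw [e, Real.norm_eq_abs, sq_abs]
          have h1 : 0 ≤ x i - (⌊x i⌋ : ℤ) := sub_nonneg.2 (Int.floor_le _)
          have h2 : x i - (⌊x i⌋ : ℤ) ≤ 1 := by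
            have := Int.lt_floor_add_one (x i)
            linarith
          nlinarith
      _ = d := by simp
  have := hp (x - (WithLp.toLp 2 (fun i => ((⌊x i⌋ : ℤ) : ℝ)) : E d)) _ hz
  rw [sub_add_cancel] at this
  rw [this]
  exact hB _ hy

theorem pf_BND (h : T_CON) : T_BND := by
  intro d F F' hL
  have c1 : ContDiff ℝ 1 (fderiv ℝ F) := hL.c2.fderiv_right (by norm_num)
  have c1' : ContDiff ℝ 1 (fderiv ℝ F') := hL.c2'.fderiv_right (by norm_num)
  have p1 : ∀ x, ∀ z ∈ Lat d, fderiv ℝ F (x + z) = fderiv ℝ F x :=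
    fun x z hz => fderiv_per h F hL.c2 hL.per x z hz
  have p1' : ∀ x, ∀ z ∈ Lat d, fderiv ℝ F' (x + z) = fderiv ℝ F' x :=
    fun x z hz => fderiv_per h F' hL.c2' hL.per' x z hz
  have p2 : ∀ x, ∀ z ∈ Lat d, fderiv ℝ (fderiv ℝ F) (x + z) = fderiv ℝ (fderiv ℝ F) x := by
    intro x z hz
    have e1 : fderiv ℝ (fun x => fderiv ℝ F (x + z)) x = fderiv ℝ (fderiv ℝ F) (x + z) :=
      fderiv_comp_add_right z
    have e2 : (fun x => fderiv ℝ F (x + z)) = fderiv ℝ F := funext fun x => p1 x z hz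
    rw [← e1, e2]
  obtain ⟨B1, hB1⟩ := bdd_of_per _ c1.continuous p1
  obtain ⟨B2, hB2⟩ := bdd_of_per _ c1'.continuous p1'
  obtain ⟨B3, hB3⟩ := bdd_of_per _ (c1.continuous_fderiv (by norm_num)) p2
  refine ⟨max 2 (max B1 (max B2 B3)), hL, le_max_left _ _, ?_, ?_, ?_⟩
  · intro x
    exact (hB1 x).trans ((le_max_left _ _).trans (le_max_right _ _))
  · intro x
    exact (hB2 x).trans ((le_max_left _ _).trans ((le_max_right _ _).trans (le_max_right _ _)))
  · intro x y
    have key := Convex.norm_image_sub_le_of_norm_fderiv_le (𝕜 := ℝ) (f := fderiv ℝ F)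
      (C := max 2 (max B1 (max B2 B3))) (s := Set.univ) (x := y) (y := x)
      (fun z _ => (c1.differentiable (by norm_num)) z)
      (fun z _ => (hB3 z).trans ((le_max_right _ _).trans ((le_max_right _ _).trans
        (le_max_right _ _)))) convex_univ (Set.mem_univ _) (Set.mem_univ _)
    exact key

end Pool.Agent.H26.CL
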